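import Mathlib

/-!
# Random sequential upper semicontinuity does not imply `𝒯_c` upper semicontinuity

Let `Ω = ℕ` with a probability measure which charges every point (we take the Poisson law), so that
`L⁰ = K^ℕ`, and let `F x = x + C` with `C = {0, 1}^ℕ`. Then `F` is `σ`-stable and, `C` being compact
for `𝒯_{ε,λ}` (the product topology), random sequentially upper semicontinuous; it is not
`𝒯_c`-upper semicontinuous at `0`: the set
`U = ⋃_{y ∈ C} {z : |z n - y n| < r y for all n}`, with `r y → 0` along the unit vectors `y = e_N`,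
is a `𝒯_c`-open neighbourhood of `C` but contains `δ / 2 + C` for no `δ ∈ L⁰_{++}`.
-/

set_option autoImplicit false

open MeasureTheory Filter Set Topology

namespace Pool.Agent.Results.MP_4f3acd_an.NotEquivalent

section Defs

variable {Ω : Type} [MeasurableSpace Ω] {P : Measure Ω} {K : Type} [RCLike K]

/-- `|ξ|` for `ξ ∈ L⁰(ℱ, K)` -/
noncomputable def absL (ξ : Ω →ₘ[P] K) : Ω →ₘ[P] ℝ :=
  AEEqFun.comp (fun k : K => ‖k‖) continuous_norm ξ

/-- the class `I_a` of the indicator function of a measurable set `a` -/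
noncomputable def ind (K : Type) [RCLike K] (P : Measure Ω) (a : Set Ω) (ha : MeasurableSet a) :
    Ω →ₘ[P] K :=
  AEEqFun.mk (a.indicator fun _ => (1 : K)) ((measurable_const.indicator ha).aestronglyMeasurable)

/-- an RN module over `K` with base `(Ω, ℱ, P)`: a module over the algebra `L⁰(ℱ, K)` with an
`L⁰`-norm -/
structure RNModule (K : Type) [RCLike K] (P : Measure Ω) where
  E : Type
  [grp : AddCommGroup E]
  smul : (Ω →ₘ[P] K) → E → E
  one_smul : ∀ x, smul 1 x = x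
  mul_smul : ∀ ξ η x, smul (ξ * η) x = smul ξ (smul η x)
  smul_add : ∀ ξ x y, smul ξ (x + y) = smul ξ x + smul ξ y
  add_smul : ∀ ξ η x, smul (ξ + η) x = smul ξ x + smul η x
  nrm : E → (Ω →ₘ[P] ℝ)
  nrm_nonneg : ∀ x, 0 ≤ nrm x
  nrm_smul : ∀ ξ x, nrm (smul ξ x) = absL ξ * nrm x
  nrm_add : ∀ x y, nrm (x + y) ≤ nrm x + nrm y
  eq_zero : ∀ x, nrm x = 0 → x = 0

attribute [instance] RNModule.grp

/-- a countable measurable partition `{a_k}` of `Ω` -/
structure Partition (Ω : Type) [MeasurableSpace Ω] where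
  part : ℕ → Set Ω
  meas : ∀ k, MeasurableSet (part k)
  disj : ∀ j k, j ≠ k → Disjoint (part j) (part k)
  cover : ∀ ω, ∃ k, ω ∈ part k

/-- `y = ∑ I_{a_k} x_k`, that is `I_{a_k} y = I_{a_k} x_k` for all `k` -/
def Glues (M : RNModule K P) (a : Partition Ω) (x : ℕ → M.E) (y : M.E) : Prop :=
  ∀ k, M.smul (ind K P (a.part k) (a.meas k)) y = M.smul (ind K P (a.part k) (a.meas k)) (x k)

/-- `X` is `σ`-stable -/
def SigmaStable (M : RNModule K P) (X : Set M.E) : Prop :=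
  X.Nonempty ∧ ∀ (a : Partition Ω) (x : ℕ → M.E), (∀ k, x k ∈ X) → ∃! y, y ∈ X ∧ Glues M a x y

/-- the set-valued map `F` (only its values on `X` matter) is a `σ`-stable map from `X` to the
nonempty subsets of `Y` -/
def SigmaStableMap (M₁ M₂ : RNModule K P) (X : Set M₁.E) (Y : Set M₂.E) (F : M₁.E → Set M₂.E) :
    Prop :=
  (∀ x ∈ X, (F x).Nonempty ∧ F x ⊆ Y) ∧
  ∀ (a : Partition Ω) (x : ℕ → M₁.E) (z : M₁.E), (∀ k, x k ∈ X) → z ∈ X → Glues M₁ a x z →
    F z = {y | ∃ y' : ℕ → M₂.E, (∀ k, y' k ∈ F (x k)) ∧ Glues M₂ a y' y}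

/-- `U` is open for `𝒯_{ε,λ}` -/
def ELOpen (M : RNModule K P) (U : Set M.E) : Prop :=
  ∀ x ∈ U, ∃ ε l : ℝ, 0 < ε ∧ 0 < l ∧ l < 1 ∧
    ∀ y, 1 - l < P.real {ω | M.nrm (y - x) ω < ε} → y ∈ U

/-- `U` is open for `𝒯_c` -/
def TcOpen (M : RNModule K P) (U : Set M.E) : Prop :=
  ∀ x ∈ U, ∃ ε : Ω →ₘ[P] ℝ, (∀ᵐ ω ∂P, 0 < ε ω) ∧ ∀ y, (∀ᵐ ω ∂P, M.nrm (y - x) ω < ε ω) → y ∈ U

/-- `N` is a neighbourhood of the set `A`, for the topology with the given open sets -/
def IsNhd {E : Type} (isOp : Set E → Prop) (A N : Set E) : Prop :=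
  ∃ O : Set E, isOp O ∧ A ⊆ O ∧ O ⊆ N

/-- `x_n → x₀` for `𝒯_{ε,λ}`: `‖x_n - x₀‖ → 0` in probability -/
def TendstoEL (M : RNModule K P) (x : ℕ → M.E) (x₀ : M.E) : Prop :=
  ∀ ε : ℝ, 0 < ε → Tendsto (fun n => P.real {ω | ε ≤ M.nrm (x n - x₀) ω}) atTop (𝓝 0)

/-- `z = x_m = ∑_l I_{(m = l)} x_l` for a random index `m` -/
def IsRandomTerm (M : RNModule K P) (x : ℕ → M.E) (m : Ω → ℕ) (hm : Measurable m) (z : M.E) :
    Prop :=
  ∀ l : ℕ, M.smul (ind K P {ω | m ω = l} (hm (measurableSet_singleton l))) z =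
    M.smul (ind K P {ω | m ω = l} (hm (measurableSet_singleton l))) (x l)

/-- `F` is `𝒯_c`-upper semicontinuous on `X` -/
def TcUSC (M₁ M₂ : RNModule K P) (X : Set M₁.E) (F : M₁.E → Set M₂.E) : Prop :=
  ∀ x₀ ∈ X, ∀ U : Set M₂.E, IsNhd (TcOpen M₂) (F x₀) U →
    ∃ V : Set M₁.E, IsNhd (TcOpen M₁) {x₀} V ∧ ∀ x ∈ V ∩ X, F x ⊆ U

/-- `F` is random sequentially upper semicontinuous on `X` -/
def RandomSeqUSC (M₁ M₂ : RNModule K P) (X : Set M₁.E) (F : M₁.E → Set M₂.E) : Prop :=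
  ∀ x₀ ∈ X, ∀ x : ℕ → M₁.E, (∀ n, x n ∈ X) → TendstoEL M₁ x x₀ →
    ∀ V : Set M₂.E, IsNhd (ELOpen M₂) (F x₀) V →
      ∃ (m : ℕ → Ω → ℕ) (hm : ∀ k, Measurable (m k)) (z : ℕ → M₁.E),
        (∀ k, ∀ᵐ ω ∂P, m k ω < m (k + 1) ω) ∧
        (∀ k, z k ∈ X ∧ IsRandomTerm M₁ x (m k) (hm k) (z k)) ∧
        ∃ k₀ : ℕ, ∀ k, k₀ ≤ k → F (z k) ⊆ V

end Defs

section Example

/-- the probability measure on `ℕ` -/
noncomputable abbrev P0 : Measure ℕ := ProbabilityTheory.poissonMeasure 1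

theorem P0_pos (n : ℕ) : P0 {n} ≠ 0 := by
  unfold P0
  rw [ProbabilityTheory.poissonMeasure_singleton]
  simp only [ne_eq, ENNReal.ofReal_eq_zero, not_le]
  positivity

theorem ae_all {p : ℕ → Prop} : (∀ᵐ n ∂P0, p n) ↔ ∀ n, p n := by
  constructor
  · intro h n
    by_contra hn
    rw [ae_iff] at h
    exact P0_pos n (measure_mono_null (by intro m hm; rw [Set.mem_singleton_iff.1 hm]; exact hn) h)
  · intro h
    exact Eventually.of_forall h

variable {K : Type} [RCLike K]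

theorem coe_ext {β : Type} [TopologicalSpace β] {f g : ℕ →ₘ[P0] β} (h : ∀ n, f n = g n) : f = g :=
  AEEqFun.ext (ae_all.2 h)

theorem coe_add (f g : ℕ →ₘ[P0] K) (n : ℕ) : (f + g) n = f n + g n :=
  ae_all.1 (AEEqFun.coeFn_add f g) n

theorem coe_addR (f g : ℕ →ₘ[P0] ℝ) (n : ℕ) : (f + g) n = f n + g n :=
  ae_all.1 (AEEqFun.coeFn_add f g) n

theorem coe_sub (f g : ℕ →ₘ[P0] K) (n : ℕ) : (f - g) n = f n - g n :=
  ae_all.1 (AEEqFun.coeFn_sub f g) n

theorem coe_mul (f g : ℕ →ₘ[P0] K) (n : ℕ) : (f * g) n = f n * g n :=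
  ae_all.1 (AEEqFun.coeFn_mul f g) n

theorem coe_mulR (f g : ℕ →ₘ[P0] ℝ) (n : ℕ) : (f * g) n = f n * g n :=
  ae_all.1 (AEEqFun.coeFn_mul f g) n

theorem coe_zero (n : ℕ) : (0 : ℕ →ₘ[P0] K) n = 0 :=
  ae_all.1 (AEEqFun.coeFn_zero (α := ℕ) (μ := P0) (β := K)) n

theorem coe_zeroR (n : ℕ) : (0 : ℕ →ₘ[P0] ℝ) n = 0 :=
  ae_all.1 (AEEqFun.coeFn_zero (α := ℕ) (μ := P0) (β := ℝ)) n

theorem coe_abs (f : ℕ →ₘ[P0] K) (n : ℕ) : (absL f) n = ‖f n‖ :=
  ae_all.1 (AEEqFun.coeFn_comp _ continuous_norm f) n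

/-- the class of a function -/
noncomputable def mkL {β : Type} [TopologicalSpace β] [TopologicalSpace.PseudoMetrizableSpace β]
    [SecondCountableTopology β] [MeasurableSpace β] [BorelSpace β] (f : ℕ → β) : ℕ →ₘ[P0] β :=
  AEEqFun.mk f (measurable_of_countable f).aestronglyMeasurable

theorem coe_mk {β : Type} [TopologicalSpace β] [TopologicalSpace.PseudoMetrizableSpace β]
    [SecondCountableTopology β] [MeasurableSpace β] [BorelSpace β] (f : ℕ → β) (n : ℕ) :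
    (mkL f) n = f n :=
  ae_all.1 (AEEqFun.coeFn_mk f _) n

theorem coe_ind (a : Set ℕ) (ha : MeasurableSet a) (n : ℕ) :
    (ind K P0 a ha) n = a.indicator (fun _ => (1 : K)) n :=
  ae_all.1 (AEEqFun.coeFn_mk _ _) n

theorem le_iff (f g : ℕ →ₘ[P0] ℝ) : f ≤ g ↔ ∀ n, f n ≤ g n := by
  rw [← AEEqFun.coeFn_le]
  exact ae_all

theorem ind_smul_iff (a : Set ℕ) (ha : MeasurableSet a) (f g : ℕ →ₘ[P0] K) :
    ind K P0 a ha * f = ind K P0 a ha * g ↔ ∀ n ∈ a, f n = g n := by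
  constructor
  · intro h n hn
    have h1 : (ind K P0 a ha * f) n = (ind K P0 a ha * g) n := by rw [h]
    rw [coe_mul, coe_mul, coe_ind, indicator_of_mem hn, one_mul, one_mul] at h1
    exact h1
  · intro h
    refine coe_ext fun n => ?_
    rw [coe_mul, coe_mul, coe_ind]
    by_cases hn : n ∈ a
    · rw [h n hn]
    · rw [indicator_of_notMem hn, zero_mul, zero_mul]

theorem coe_one (n : ℕ) : (1 : ℕ →ₘ[P0] K) n = 1 :=
  ae_all.1 (AEEqFun.coeFn_one (α := ℕ) (μ := P0) (β := K)) n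

/-- `L⁰(K)` as an RN module -/
noncomputable def LM (K : Type) [RCLike K] : RNModule K P0 where
  E := ℕ →ₘ[P0] K
  smul := fun ξ x => ξ * x
  one_smul x := coe_ext fun n => by rw [coe_mul, coe_one, one_mul]
  mul_smul ξ η x := coe_ext fun n => by rw [coe_mul, coe_mul, coe_mul, coe_mul, mul_assoc]
  smul_add ξ x y := coe_ext fun n => by
    rw [coe_mul, coe_add, coe_add, coe_mul, coe_mul, mul_add]
  add_smul ξ η x := coe_ext fun n => by
    rw [coe_mul, coe_add, coe_add, coe_mul, coe_mul, add_mul]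
  nrm := absL
  nrm_nonneg x := by
    rw [le_iff]
    intro n
    rw [coe_abs, coe_zeroR]
    exact norm_nonneg _
  nrm_smul ξ x := by
    refine coe_ext fun n => ?_
    rw [coe_abs, coe_mulR, coe_abs, coe_abs, coe_mul, norm_mul]
  nrm_add x y := by
    rw [le_iff]
    intro n
    rw [coe_abs, coe_addR, coe_abs, coe_abs, coe_add]
    exact norm_add_le _ _
  eq_zero x h := by
    refine coe_ext fun n => ?_
    rw [coe_zero]
    have h1 : (absL x) n = (0 : ℕ →ₘ[P0] ℝ) n := by rw [h]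
    rw [coe_abs, coe_zeroR] at h1
    exact norm_eq_zero.1 h1

theorem stable_univ : SigmaStable (LM K) (univ : Set (ℕ →ₘ[P0] K)) := by
  refine ⟨⟨(0 : ℕ →ₘ[P0] K), mem_univ _⟩, ?_⟩
  intro a (x : ℕ → ℕ →ₘ[P0] K) _
  choose k hk using a.cover
  refine ⟨mkL fun n => x (k n) n, ⟨mem_univ _, ?_⟩, ?_⟩
  · intro j
    refine (ind_smul_iff _ _ _ _).2 fun n hn => ?_
    rw [coe_mk]
    have : k n = j := by
      by_contra hne
      exact (a.disj _ _ hne).le_bot ⟨hk n, hn⟩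
    rw [this]
  · rintro y ⟨_, hy⟩
    refine coe_ext fun n => ?_
    rw [coe_mk]
    exact (ind_smul_iff _ _ _ _).1 (hy (k n)) n (hk n)

/-- the map `F x = x + {0, 1}^ℕ` -/
def Fm (x : ℕ →ₘ[P0] K) : Set (ℕ →ₘ[P0] K) := {y | ∀ n, y n - x n = 0 ∨ y n - x n = 1}

theorem stable_F : SigmaStableMap (LM K) (LM K) univ univ (Fm (K := K)) := by
  refine ⟨fun x _ => ⟨⟨x, fun n => Or.inl (sub_self _)⟩, subset_univ _⟩, ?_⟩
  intro a (x : ℕ → ℕ →ₘ[P0] K) (z : ℕ →ₘ[P0] K) _ _ hz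
  have hz' : ∀ k, ∀ n ∈ a.part k, z n = x k n := fun k => (ind_smul_iff _ _ _ _).1 (hz k)
  ext y
  constructor
  · intro hy
    refine ⟨fun k => x k + (y - z), fun k n => ?_, fun k => ?_⟩
    · rw [coe_add, coe_sub, add_sub_cancel_left]
      exact hy n
    · refine (ind_smul_iff _ _ _ _).2 fun n hn => ?_
      rw [coe_add, coe_sub, hz' k n hn]
      ring
  · rintro ⟨y', hy', hg⟩ n
    obtain ⟨k, hk⟩ := a.cover n
    rw [(ind_smul_iff _ _ _ _).1 (hg k) n hk, hz' k n hk]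
    exact hy' k n

/-- an `𝒯_{ε,λ}`-open set is open for the product topology -/
theorem open_of_EL {O : Set (ℕ →ₘ[P0] K)} (hO : ELOpen (LM K) O) :
    IsOpen {f : ℕ → K | mkL f ∈ O} := by
  rw [isOpen_iff_mem_nhds]
  intro f hf
  obtain ⟨ε, l, hε, hl, -, h⟩ := hO _ hf
  have h1 : Tendsto (fun M : ℕ => P0.real (Iio M)) atTop (𝓝 1) := by
    have h2 := tendsto_measure_iUnion_atTop (μ := P0) (s := fun M : ℕ => Iio M)
      (fun a b hab => Iio_subset_Iio hab)
    have h3 : (⋃ M : ℕ, Iio M) = (univ : Set ℕ) := by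
      ext n
      simp only [mem_iUnion, mem_Iio, mem_univ, iff_true]
      exact ⟨n + 1, by omega⟩
    rw [h3, measure_univ] at h2
    have h4 := (ENNReal.tendsto_toReal ENNReal.one_ne_top).comp h2
    rw [ENNReal.toReal_one] at h4
    exact h4
  obtain ⟨M, hM⟩ := (h1.eventually (lt_mem_nhds (show 1 - l < 1 by linarith))).exists
  have h2 : ∀ᶠ g in 𝓝 f, ∀ i ∈ Finset.range M, ‖g i - f i‖ < ε := by
    rw [Filter.eventually_all_finset]
    intro i _
    have h3 : Tendsto (fun g : ℕ → K => ‖g i - f i‖) (𝓝 f) (𝓝 ‖f i - f i‖) := by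
      have : Continuous fun g : ℕ → K => ‖g i - f i‖ :=
        ((continuous_apply i).sub continuous_const).norm
      exact this.tendsto f
    rw [sub_self, norm_zero] at h3
    exact h3.eventually (gt_mem_nhds hε)
  filter_upwards [h2] with g hg
  apply h
  refine lt_of_lt_of_le hM ?_
  apply measureReal_mono _ (measure_ne_top _ _)
  intro i hi
  show (absL (mkL g - mkL f)) i < ε
  rw [coe_abs, coe_sub, coe_mk, coe_mk]
  exact hg i (Finset.mem_range.2 hi)

theorem pointwise_of_EL {x : ℕ → (ℕ →ₘ[P0] K)} {x₀ : ℕ →ₘ[P0] K} (h : TendstoEL (LM K) x x₀) :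
    Tendsto (fun n => (x n : ℕ → K)) atTop (𝓝 (x₀ : ℕ → K)) := by
  rw [tendsto_pi_nhds]
  intro i
  rw [Metric.tendsto_atTop]
  intro ε hε
  have hi : 0 < P0.real {i} := by
    rw [Measure.real, ENNReal.toReal_pos_iff]
    exact ⟨pos_iff_ne_zero.2 (P0_pos i), measure_lt_top _ _⟩
  obtain ⟨N, hN⟩ := eventually_atTop.1 ((h ε hε).eventually (gt_mem_nhds hi))
  refine ⟨N, fun n hn => ?_⟩
  by_contra hcon
  rw [not_lt, dist_eq_norm] at hcon
  have h1 := hN n hn
  have h2 : P0.real {i} ≤ P0.real {ω | ε ≤ ((LM K).nrm (x n - x₀)) ω} := by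
    apply measureReal_mono _ (measure_ne_top _ _)
    intro j hj
    rw [Set.mem_singleton_iff.1 hj]
    show ε ≤ (absL (x n - x₀)) i
    rw [coe_abs, coe_sub]
    exact hcon
  exact absurd (lt_of_le_of_lt h2 h1) (lt_irrefl _)

theorem mk_coe (f : ℕ →ₘ[P0] K) : mkL (f : ℕ → K) = f := coe_ext fun n => coe_mk _ n

theorem usc_F : RandomSeqUSC (LM K) (LM K) univ (Fm (K := K)) := by
  intro (x₀ : ℕ →ₘ[P0] K) _ (x : ℕ → ℕ →ₘ[P0] K) _ hx V hV
  obtain ⟨O, hO, hFO, hOV⟩ := hV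
  have hOp := open_of_EL hO
  set O' : Set (ℕ → K) := {f | mkL f ∈ O} with hO'
  have hC : IsCompact (Set.pi univ (fun _ : ℕ => ({0, 1} : Set K))) :=
    isCompact_univ_pi fun _ => (Set.toFinite _).isCompact
  have h1 : ∀ᶠ f in 𝓝 (x₀ : ℕ → K), ∀ c ∈ Set.pi univ (fun _ : ℕ => ({0, 1} : Set K)),
      f + c ∈ O' := by
    apply hC.eventually_forall_of_forall_eventually
    intro c hc
    have h2 : (x₀ : ℕ → K) + c ∈ O' := by
      apply hFO
      intro n
      rw [coe_mk, Pi.add_apply, add_sub_cancel_left]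
      have := hc n (mem_univ n)
      simpa using this
    have h3 : Continuous fun z : (ℕ → K) × (ℕ → K) => z.1 + z.2 := continuous_fst.add continuous_snd
    exact h3.continuousAt.eventually (hOp.mem_nhds h2)
  have h2 := (pointwise_of_EL hx).eventually h1
  obtain ⟨N, hN⟩ := eventually_atTop.1 h2
  refine ⟨fun k _ => k, fun k => measurable_const, x, fun k => ae_all.2 fun _ => Nat.lt_succ_self k,
    fun k => ⟨mem_univ _, ?_⟩, N, ?_⟩
  · intro l
    refine (ind_smul_iff _ _ _ _).2 fun n hn => ?_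
    have : k = l := hn
    rw [this]
  · intro k hk (y : ℕ →ₘ[P0] K) hy
    apply hOV
    have h3 := hN k hk (fun n => y n - x k n) (by
      intro n _
      have := hy n
      simpa using this)
    have h4 : mkL ((x k : ℕ → K) + fun n => y n - x k n) = y := by
      refine coe_ext fun n => ?_
      rw [coe_mk, Pi.add_apply]
      ring
    have h5 : mkL ((x k : ℕ → K) + fun n => y n - x k n) ∈ O := h3
    rw [h4] at h5
    exact h5

/-- the radius of the ball around a point of `{0, 1}^ℕ` -/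
noncomputable def rad (y : ℕ →ₘ[P0] K) : ℝ := 1 / (4 * ((sInf {n : ℕ | y n = 1} : ℕ) + 1))

theorem rad_pos (y : ℕ →ₘ[P0] K) : 0 < rad y := by unfold rad; positivity

theorem rad_le (y : ℕ →ₘ[P0] K) : rad y ≤ 1 / 4 := by
  unfold rad
  apply one_div_le_one_div_of_le (by norm_num)
  have : (0 : ℝ) ≤ (sInf {n : ℕ | y n = 1} : ℕ) := Nat.cast_nonneg _
  linarith

/-- the neighbourhood of `{0, 1}^ℕ` -/
def Un : Set (ℕ →ₘ[P0] K) := {z | ∃ y ∈ Fm (K := K) 0, ∀ n, ‖z n - y n‖ < rad y}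

theorem open_Un : TcOpen (LM K) (Un (K := K)) := by
  intro (z : ℕ →ₘ[P0] K) hz
  obtain ⟨y, hy, hz⟩ := hz
  refine ⟨mkL fun n => rad y - ‖z n - y n‖, ae_all.2 fun n => ?_, fun (w : ℕ →ₘ[P0] K) hw =>
    ⟨y, hy, fun n => ?_⟩⟩
  · rw [coe_mk]
    linarith [hz n]
  · have h1 : (absL (w - z)) n < (mkL fun n => rad y - ‖z n - y n‖ : ℕ →ₘ[P0] ℝ) n :=
      ae_all.1 hw n
    rw [coe_abs, coe_sub, coe_mk] at h1
    calc ‖w n - y n‖ = ‖(w n - z n) + (z n - y n)‖ := by rw [sub_add_sub_cancel]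
      _ ≤ ‖w n - z n‖ + ‖z n - y n‖ := norm_add_le _ _
      _ < rad y := by linarith

theorem not_usc_F : ¬ TcUSC (LM K) (LM K) univ (Fm (K := K)) := by
  intro h
  obtain ⟨V, ⟨O, hO, h0O, hOV⟩, hV⟩ := h 0 (mem_univ _) Un ⟨Un, open_Un, by
    intro y hy
    exact ⟨y, hy, fun n => by rw [sub_self, norm_zero]; exact rad_pos y⟩, le_rfl⟩
  obtain ⟨δ, hδ, hδO⟩ := hO 0 (h0O rfl)
  have hδ' := ae_all.1 hδ
  -- the point `x = min δ (1 / 2) / 2`
  let x : ℕ →ₘ[P0] K := mkL fun n => (((min (δ n) (1 / 2)) / 2 : ℝ) : K)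
  have hxn : ∀ n, x n = (((min (δ n) (1 / 2)) / 2 : ℝ) : K) := fun n => coe_mk _ n
  have hxpos : ∀ n, 0 < min (δ n) (1 / 2 : ℝ) / 2 := fun n =>
    div_pos (lt_min (hδ' n) (by norm_num)) (by norm_num)
  have hxnorm : ∀ n, ‖x n‖ = min (δ n) (1 / 2) / 2 := by
    intro n
    rw [hxn, RCLike.norm_ofReal, abs_of_pos (hxpos n)]
  have hxO : x ∈ O := by
    apply hδO
    refine ae_all.2 fun n => ?_
    show (absL (x - 0)) n < δ n
    rw [coe_abs, sub_zero, hxnorm]
    have := min_le_left (δ n) (1 / 2 : ℝ)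
    linarith [hδ' n, hxpos n]
  have hFx := hV x ⟨hOV hxO, mem_univ _⟩
  -- the unit vector `e_N`
  obtain ⟨N, hN⟩ := exists_nat_gt (1 / (min (δ 0) (1 / 2 : ℝ) / 2))
  let e : ℕ →ₘ[P0] K := mkL fun n => if n = N then 1 else 0
  have hen : ∀ n, e n = if n = N then 1 else 0 := fun n => coe_mk _ n
  have hxe : x + e ∈ Fm (K := K) x := by
    intro n
    rw [coe_add, add_sub_cancel_left, hen]
    by_cases hn : n = N
    · exact Or.inr (if_pos hn)
    · exact Or.inl (if_neg hn)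
  obtain ⟨y, hy, hlt⟩ := hFx hxe
  by_cases hye : ∀ n, y n = e n
  · have h1 := hlt 0
    rw [coe_add, hye 0, add_sub_cancel_right, hxnorm] at h1
    have h2 : {n : ℕ | y n = 1} = {N} := by
      ext n
      rw [mem_ofPred_eq, hye, hen, mem_singleton_iff]
      by_cases hn : n = N
      · simp [hn]
      · simp [hn]
    have h3 : rad y = 1 / (4 * ((N : ℝ) + 1)) := by
      unfold rad
      rw [h2, csInf_singleton]
    rw [h3] at h1
    have h4 := hxpos 0
    rw [div_lt_iff₀ h4] at hN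
    rw [lt_div_iff₀ (by positivity)] at h1
    nlinarith
  · push Not at hye
    obtain ⟨n, hn⟩ := hye
    have h1 := hlt n
    rw [coe_add] at h1
    have h2 : ‖e n - y n‖ = 1 := by
      have h3 := hy n
      rw [coe_zero, sub_zero] at h3
      have h4 : e n = 0 ∨ e n = 1 := by
        rw [hen]
        by_cases hn : n = N
        · exact Or.inr (if_pos hn)
        · exact Or.inl (if_neg hn)
      rcases h3 with h3 | h3 <;> rcases h4 with h4 | h4
      · exact absurd (h3.trans h4.symm) hn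
      · rw [h3, h4, sub_zero, norm_one]
      · rw [h3, h4, zero_sub, norm_neg, norm_one]
      · exact absurd (h3.trans h4.symm) hn
    have h3 : ‖e n - y n‖ ≤ ‖x n + e n - y n‖ + ‖x n‖ := by
      calc ‖e n - y n‖ = ‖(x n + e n - y n) - x n‖ := by congr 1; ring
        _ ≤ _ := norm_sub_le _ _
    have h4 := rad_le y
    have h5 : ‖x n‖ ≤ 1 / 4 := by
      rw [hxnorm]
      have := min_le_right (δ n) (1 / 2 : ℝ)
      linarith
    linarith

end Example

/-- For `K = ℝ` and `K = ℂ` (that is, for every `K : Type` with an instance `RCLike K`) there are a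
probability space, RN modules `M₁`, `M₂` over `K` with this base, `σ`-stable sets `X` in `M₁` and
`Y` in `M₂`, and a `σ`-stable `F : X → 2^Y ∖ {∅}` which is random sequentially upper semicontinuous
but not `𝒯_c`-upper semicontinuous. -/
theorem result (K : Type) [RCLike K] :
    ∃ (Ω : Type) (_ : MeasurableSpace Ω) (P : Measure Ω) (_ : IsProbabilityMeasure P)
      (M₁ M₂ : RNModule K P) (X : Set M₁.E) (Y : Set M₂.E) (F : M₁.E → Set M₂.E),
      SigmaStable M₁ X ∧ SigmaStable M₂ Y ∧ SigmaStableMap M₁ M₂ X Y F ∧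
      RandomSeqUSC M₁ M₂ X F ∧ ¬ TcUSC M₁ M₂ X F :=
  ⟨ℕ, inferInstance, P0, inferInstance, LM K, LM K, univ, univ, Fm, stable_univ, stable_univ,
    stable_F, usc_F, not_usc_F⟩

end Pool.Agent.Results.MP_4f3acd_an.NotEquivalent
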